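import Pool.Agent.V11232.ET.LPMain
import Pool.Agent.V11232.ET.Incl

namespace Pool.Agent.Results.MP_ab0e6d_lc.ProperInclusion

open Pool.Agent.V11232.ET

/-- The family ET0L is properly included in LP-E0L: over every finite terminal alphabet each ET0L
language is generated by a left permitting E0L grammar, and over the two-letter alphabet some
language is generated by a left permitting E0L grammar but by no ET0L grammar. -/
theorem result : (∀ T : Type, Finite T → fET0L T ⊆ fLPE T) ∧
    ∃ L : Language (Fin 2), L ∈ fLPE (Fin 2) ∧ L ∉ fET0L (Fin 2) :=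
  ⟨fun _ _ => fET0L_subset_fLPE, L2, ⟨GP, GP_permitting, GP_lang⟩, L2_not_ET0L⟩

end Pool.Agent.Results.MP_ab0e6d_lc.ProperInclusion
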